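import Mathlib

namespace Pool.Agent.Results.MP_ac28de_co.Aut

open List

/-- Words over the letters 1 (`false`) and 2 (`true`). -/
abbrev Word := List Bool

/-- `y` covers `x` in the Young-Fibonacci lattice. -/
def Cov (x y : Word) : Prop :=
  (∃ k w, y = replicate k true ++ false :: w ∧ x = replicate k true ++ w) ∨
    ∃ k w, y = replicate k true ++ true :: w ∧ x = replicate k true ++ false :: w

/-- Saturated chains from the empty word, listed from the top `x_n` down to `x_0`. -/
inductive Ch : List Word → Prop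
  | root : Ch [[]]
  | step {x y l} : Ch (x :: l) → Cov x y → Ch (y :: x :: l)

abbrev V := {l // Ch l}

/-- The tree of upward paths. -/
def T : SimpleGraph V := SimpleGraph.fromRel fun a b => ∃ y, b.1 = y :: a.1

/-- Exchange a final `2` and a final `11`; words ending in `21` are fixed. -/
def φ : Word → Word
  | [true] => [false, false]
  | [false, false] => [true]
  | a :: w => a :: φ w
  | [] => []

/-- Words of the form `2...21`. -/
def sp : Word → Bool
  | [false] => true
  | true :: w => sp w
  | _ => false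

/-- The value of `ε` at the last initial chain that ends in a word `2...21`. -/
def nxt (ε : List Word → Bool) : List Word → Bool
  | [] => false
  | x :: l => if sp x then ε (x :: l) else nxt ε l

def tw (s : Bool) (y : Word) : Word := if s then φ y else y

def F (ε : List Word → Bool) : List Word → List Word
  | [] => []
  | y :: l => tw (nxt ε l) y :: F ε l

inductive C : Word → Word → Prop
  | one w : C w (false :: w)
  | two w : C (false :: w) (true :: w)
  | cons {x y} : C x y → C (true :: x) (true :: y)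

theorem cov_iff {x y : Word} : Cov x y ↔ C x y := by
  constructor
  · rintro (⟨k, w, rfl, rfl⟩ | ⟨k, w, rfl, rfl⟩) <;> induction k with
    | zero => constructor
    | succ k ih => exact .cons ih
  · intro h
    induction h with
    | one w => exact Or.inl ⟨0, w, rfl, rfl⟩
    | two w => exact Or.inr ⟨0, w, rfl, rfl⟩
    | cons _ ih =>
      rcases ih with ⟨k, w, rfl, rfl⟩ | ⟨k, w, rfl, rfl⟩
      · exact Or.inl ⟨k + 1, w, rfl, rfl⟩
      · exact Or.inr ⟨k + 1, w, rfl, rfl⟩

theorem C.ne {x y : Word} (h : C x y) : y ≠ [] := by cases h <;> simp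

theorem C.flip {x y : Word} (h : C x y) : C y (true :: x) := by
  induction h with
  | one w => exact .two w
  | two w => exact .cons (.one w)
  | cons _ ih => exact .cons ih

theorem C.flip' : ∀ {x y : Word}, C y (true :: x) → C x y
  | _, _, .two w => .one w
  | _, _, .cons (.one w) => .two w
  | _, _, .cons (.two w) => .cons (.one w)
  | _, _, .cons (.cons h) => .cons (C.flip' (.cons h))

theorem φ1 {w : Word} (h : w ≠ [false]) : φ (false :: w) = false :: φ w := by
  rw [φ] <;> simp_all

theorem φ2 {w : Word} (h : w ≠ []) : φ (true :: w) = true :: φ w := by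
  rw [φ] <;> simp_all

theorem φφ : ∀ w, φ (φ w) = w
  | [] => rfl
  | [true] => rfl
  | [false] => rfl
  | [false, false] => rfl
  | true :: a :: w => by
    have := φφ (a :: w)
    rw [φ2 (by simp), φ2 (fun h => by simp [h, φ] at this), this]
  | false :: true :: w => by
    have := φφ (true :: w)
    rw [φ1 (by simp), φ1 (fun h => by simp [h, φ] at this), this]
  | false :: false :: a :: w => by
    have := φφ (false :: a :: w)
    rw [φ1 (by simp), φ1 (fun h => by simp [h, φ] at this), this]

theorem C.map {x y : Word} (h : C x y) : C (φ x) (φ y) := by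
  induction h with
  | one w =>
    by_cases e : w = [false]
    · subst e; exact .two _
    · rw [φ1 e]; exact .one _
  | two w =>
    by_cases e : w = []
    · subst e; exact .one _
    by_cases e' : w = [false]
    · subst e'; exact .cons (.one _)
    · rw [φ1 e', φ2 e]; exact .two _
  | @cons x y h ih =>
    rw [φ2 h.ne]
    by_cases e : x = []
    · subst e
      cases h
      exact .two _
    · rw [φ2 e]; exact .cons ih

theorem sp_ne {x : Word} (h : sp x) : x ≠ [] := by rintro rfl; simp [sp] at h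

theorem sp_cases {x : Word} (h : sp x) : x = [false] ∨ ∃ w, x = true :: w ∧ sp w := by
  match x, h with
  | [false], _ => exact Or.inl rfl
  | true :: w, h => exact Or.inr ⟨w, rfl, by simpa [sp] using h⟩

theorem sp_fix : ∀ {x : Word}, sp x → φ x = x := by
  intro x h
  induction x with
  | nil => rfl
  | cons a w ih =>
    rcases sp_cases h with e | ⟨w', e, h'⟩
    · rw [e]; rfl
    · cases e
      rw [φ2 (sp_ne h'), ih h']

theorem both {x y : Word} (h : C x y) (h' : C x (φ y)) (ne : φ y ≠ y) : sp x := by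
  induction h with
  | one w =>
    by_cases e : w = [false]
    · subst e; rfl
    · rw [φ1 e] at h' ne
      generalize φ w = u at h' ne
      cases h'
      exact absurd rfl ne
  | two w =>
    by_cases e : w = []
    · subst e; rfl
    · rw [φ2 e] at h' ne
      generalize φ w = u at h' ne
      cases h'
      exact absurd rfl ne
  | @cons x y h ih =>
    rw [φ2 h.ne] at h' ne
    cases h' with
    | cons h' => simpa [sp] using ih h' (by simpa using ne)

theorem pair {x y z : Word} (hx : sp x) (h : C x y) (h' : C x z) (a : φ y ≠ y) (b : φ z ≠ z) :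
    z = y ∨ z = φ y := by
  induction x generalizing y z with
  | nil => exact absurd rfl (sp_ne hx)
  | cons c w ih =>
    rcases sp_cases hx with e | ⟨w', e, hw⟩ <;> cases e
    · cases h <;> cases h' <;> simp [φ]
    have fx : φ (false :: true :: w) = false :: true :: w := by rw [φ1 (by simp), sp_fix hx]
    cases h with
    | one => exact absurd fx a
    | cons h =>
      cases h' with
      | one => exact absurd fx b
      | cons h' =>
        rw [φ2 h.ne] at a ⊢
        rw [φ2 h'.ne] at b
        simpa using ih hw h h' (by simpa using a) (by simpa using b)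

theorem moved {x : Word} (hx : sp x) : ∃ y, C x y ∧ φ y ≠ y := by
  induction x with
  | nil => exact absurd rfl (sp_ne hx)
  | cons c w ih =>
    rcases sp_cases hx with e | ⟨w', e, hw⟩ <;> cases e
    · exact ⟨_, .two _, by simp [φ]⟩
    · obtain ⟨y, a, b⟩ := ih hw
      exact ⟨_, .cons a, by rw [φ2 a.ne]; simpa⟩

def Bis (B : Word → Word → Prop) : Prop := ∀ x x', B x x' → ∃ f f' : Word → Word,
  (∀ y, C x y → C x' (f y) ∧ B y (f y) ∧ f' (f y) = y) ∧ ∀ y, C x' y → C x (f' y) ∧ f (f' y) = y

def Two (x : Word) : Prop := ∀ a b c, C x a → C x b → C x c → a = b ∨ a = c ∨ b = c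

theorem two1 (w : Word) : Two (false :: w) := by
  intro a b c h1 h2 h3
  cases h1 <;> cases h2 <;> cases h3 <;> simp

theorem two2 {y : Word} (h : Two (true :: y)) : y = [] := by
  by_contra ne
  obtain ⟨z, hz⟩ : ∃ z, C z y := by
    match y, ne with
    | false :: w, _ => exact ⟨_, .one w⟩
    | true :: w, _ => exact ⟨_, .two w⟩
  simpa using h _ _ _ (.one _) (.cons (.one y)) (.cons hz.flip)

theorem Bis.two {B} (h : Bis B) {x x' : Word} (b : B x x') : Two x ↔ Two x' := by
  obtain ⟨f, f', h1, h2⟩ := h x x' b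
  refine ⟨fun t a b c p q r => ?_, fun t a b c p q r => ?_⟩
  · have := t _ _ _ (h2 a p).1 (h2 b q).1 (h2 c r).1
    have := (h2 a p).2
    have := (h2 b q).2
    have := (h2 c r).2
    grind
  · have := t _ _ _ (h1 a p).1 (h1 b q).1 (h1 c r).1
    have := (h1 a p).2.2
    have := (h1 b q).2.2
    have := (h1 c r).2.2
    grind

theorem Bis.down {B} (h : Bis B) : Bis fun y y' => B (true :: y) (true :: y') := by
  intro y y' b
  obtain ⟨f, f', h1, h2⟩ := h _ _ b
  have k1 : ∀ z, C y z → ∃ u, f (true :: z) = true :: u := fun z hz => by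
    obtain ⟨a, b, -⟩ := h1 _ (.cons hz)
    generalize f (true :: z) = u at a b
    cases a with
    | one => exact absurd (two2 ((h.two b).mpr (two1 _))) hz.ne
    | cons => exact ⟨_, rfl⟩
  have k2 : ∀ z, C y' z → ∃ u, f' (true :: z) = true :: u := fun z hz => by
    obtain ⟨a, b⟩ := h2 _ (.cons hz)
    have c := (h1 _ a).2.1
    rw [b] at c
    generalize f' (true :: z) = u at a c
    cases a with
    | one => exact absurd (two2 ((h.two c).mp (two1 _))) hz.ne
    | cons => exact ⟨_, rfl⟩
  refine ⟨fun z => (f (true :: z)).tail, fun z => (f' (true :: z)).tail, fun z hz => ?_, fun z hz => ?_⟩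
  · obtain ⟨u, e⟩ := k1 z hz
    obtain ⟨a, b, c⟩ := h1 _ (.cons hz)
    simp only [e, tail_cons] at a b c ⊢
    cases a with
    | cons a => exact ⟨a, b, by rw [c]; rfl⟩
  · obtain ⟨u, e⟩ := k2 z hz
    obtain ⟨a, c⟩ := h2 _ (.cons hz)
    simp only [e, tail_cons] at a c ⊢
    cases a with
    | cons a => exact ⟨a, by rw [c]; rfl⟩

def rk : Word → ℕ
  | [] => 0
  | a :: w => rk w + 1 + a.toNat

theorem C.rk {x y : Word} (h : C x y) : rk y = rk x + 1 := by
  induction h <;> simp [Aut.rk, *]

theorem rk0 {x : Word} (h : rk x = 0) : x = [] := by cases x <;> simp_all [rk]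

theorem rk1 {x : Word} (h : rk x = 1) : x = [false] := by
  rcases x with _ | ⟨_ | _, w⟩ <;> simp [rk] at h
  rw [rk0 h]

theorem main (x : Word) : ∀ B, Bis B → ∀ x', B x x' → rk x = rk x' → x' = x ∨ x' = φ x := by
  induction x with
  | nil => exact fun _ _ _ _ e => Or.inl (rk0 e.symm)
  | cons a w ih =>
    rintro B h (_ | ⟨a', w'⟩) b e
    · simp [rk] at e
    cases a <;> cases a' <;> simp only [rk, Bool.toNat_true, Bool.toNat_false] at e
    · by_cases e0 : w = []
      · subst e0
        exact Or.inl (by rw [rk0 (x := w') (by simpa [rk] using e.symm)])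
      obtain ⟨f, f', h1, -⟩ := h _ _ b
      obtain ⟨p, q, -⟩ := h1 _ (.two w)
      generalize f (true :: w) = u at p q
      cases p with
      | one => exact absurd (two2 ((h.two q).mpr (two1 _))) e0
      | two =>
        by_cases e1 : w = [false]
        · subst e1
          exact Or.inl (by rw [rk1 (x := w') (by simpa [rk] using e.symm)])
        rw [φ1 e1]
        simpa using ih _ h.down w' q (by omega)
    · obtain rfl := two2 ((h.two b).mp (two1 _))
      rw [rk1 (x := w) (by simpa [rk] using e)]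
      exact Or.inr rfl
    · obtain rfl := two2 ((h.two b).mpr (two1 _))
      rw [rk1 (x := w') (by simpa [rk] using e.symm)]
      exact Or.inr rfl
    · by_cases e0 : w = []
      · subst e0
        exact Or.inl (by rw [rk0 (x := w') (by simpa [rk] using e.symm)])
      rw [φ2 e0]
      simpa using ih _ h.down w' b (by omega)

theorem tw_tw (s : Bool) (y : Word) : tw s (tw s y) = y := by cases s <;> simp [tw, φφ]

theorem C_tw (s : Bool) {x y : Word} : C (tw s x) (tw s y) ↔ C x y := by
  cases s
  · rfl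
  · exact ⟨fun h => by simpa [tw, φφ] using h.map, C.map⟩

theorem C_step (ε : List Word → Bool) (x y : Word) (l : List Word) :
    C (tw (nxt ε l) x) (tw (nxt ε (x :: l)) y) ↔ C x y := by
  rw [nxt]
  split_ifs with h
  · have : ∀ s, tw s x = x := fun s => by simp [tw, sp_fix h]
    rw [this, ← C_tw (ε (x :: l)) (x := x) (y := y), this]
  · exact C_tw _

theorem ch_cons {x y : Word} {l : List Word} : Ch (y :: x :: l) ↔ Ch (x :: l) ∧ C x y :=
  ⟨fun h => by cases h with | step a b => exact ⟨a, cov_iff.mp b⟩,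
    fun h => .step h.1 (cov_iff.mpr h.2)⟩

theorem ch_F (ε : List Word → Bool) : ∀ l, Ch (F ε l) ↔ Ch l
  | [] => Iff.rfl
  | [y] => ⟨fun h => by cases (show Ch [y] from h); exact .root, fun h => by cases h; exact .root⟩
  | y :: x :: l => by
    have := ch_F ε (x :: l)
    rw [F] at this
    rw [F, F, ch_cons, ch_cons, this, C_step]

theorem F_inj (ε : List Word → Bool) : Function.Injective (F ε)
  | [], [], _ => rfl
  | [], _ :: _, h => by simp [F] at h
  | _ :: _, [], h => by simp [F] at h
  | y :: l, y' :: l', h => by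
    obtain ⟨a, b⟩ := cons.inj h
    obtain rfl := F_inj ε b
    rw [← tw_tw _ y, a, tw_tw]

theorem F_surj (ε : List Word → Bool) : Function.Surjective (F ε)
  | [] => ⟨[], rfl⟩
  | y :: m => by
    obtain ⟨l, rfl⟩ := F_surj ε m
    exact ⟨tw (nxt ε l) y :: l, by rw [F, tw_tw]⟩

def Kid (a b : V) : Prop := ∃ y, b.1 = y :: a.1

theorem adj {a b : V} : T.Adj a b ↔ Kid a b ∨ Kid b a :=
  ⟨fun h => h.2, fun h => ⟨by
    rintro rfl
    rcases h with ⟨y, h⟩ | ⟨y, h⟩ <;> simpa using congrArg length h, h⟩⟩

theorem par {a a' b : V} (h : Kid a b) (h' : Kid a' b) : a = a' := by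
  obtain ⟨y, h⟩ := h
  obtain ⟨y', h'⟩ := h'
  exact Subtype.ext (cons.inj (h.symm.trans h')).2

def root : V := ⟨_, .root⟩

theorem root_eq (g : T ≃g T) : g root = root := by
  have key : ∀ a, T.Adj root a → a.1 = [[false], []] := by
    rintro ⟨_, h⟩ e
    rcases adj.mp e with ⟨y, rfl⟩ | ⟨y, e⟩
    · cases (ch_cons.mp h).2
      rfl
    · obtain rfl : _ = [] := (cons.inj e).2.symm
      cases h
  generalize e : g root = u
  obtain ⟨_, h⟩ := u
  cases h with
  | root => rfl
  | @step x y l a b =>
    have p := key (g.symm ⟨_, a⟩) (by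
      rw [← g.map_adj_iff, e, g.apply_symm_apply]; exact adj.mpr (Or.inr ⟨y, rfl⟩))
    have q := key (g.symm ⟨_, ch_cons.mpr ⟨.step a b, .one y⟩⟩) (by
      rw [← g.map_adj_iff, e, g.apply_symm_apply]; exact adj.mpr (Or.inl ⟨_, rfl⟩))
    simpa using congrArg (fun v : V => v.1.length) (g.symm.injective (Subtype.ext (p.trans q.symm)))

theorem kid (g : T ≃g T) (l : List Word) (h : Ch l) : ∀ b, Kid ⟨l, h⟩ b → Kid (g ⟨l, h⟩) (g b) := by
  induction h with
  | root =>
    intro b hb
    refine (adj.mp (g.map_adj_iff.mpr (adj.mpr (Or.inl hb)))).resolve_right ?_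
    rw [show g ⟨_, .root⟩ = root from root_eq g]
    rintro ⟨y, e⟩
    have := (g b).2
    rw [← (cons.inj e).2] at this
    cases this
  | @step x y l a c ih =>
    intro b hb
    refine (adj.mp (g.map_adj_iff.mpr (adj.mpr (Or.inl hb)))).resolve_right fun e => ?_
    obtain rfl := g.injective (par e (ih _ ⟨y, rfl⟩))
    obtain ⟨z, e⟩ := hb
    simpa using congrArg length e

theorem kid_C {a b : V} (h : Kid a b) : C a.1.headI b.1.headI := by
  obtain ⟨_, hb⟩ := b
  obtain ⟨y, rfl⟩ := h
  obtain ⟨_ | ⟨x, l⟩, ha⟩ := a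
  · cases ha
  · exact (ch_cons.mp hb).2

open Classical in
noncomputable def up (a : V) (y : Word) : V := if h : Ch (y :: a.1) then ⟨_, h⟩ else a

theorem up_val {a : V} {y : Word} (h : C a.1.headI y) : (up a y).1 = y :: a.1 := by
  obtain ⟨_ | ⟨x, l⟩, ha⟩ := a
  · cases ha
  · rw [up, dif_pos (ch_cons.mpr ⟨ha, h⟩)]

theorem up_kid {a b : V} (h : Kid a b) : up a b.1.headI = b := by
  refine Subtype.ext ((up_val (kid_C h)).trans ?_)
  obtain ⟨y, h⟩ := h
  rw [h]
  rfl

theorem bis (g : T ≃g T) : Bis fun x x' => ∃ v : V, v.1.headI = x ∧ (g v).1.headI = x' := by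
  rintro _ _ ⟨v, rfl, rfl⟩
  refine ⟨fun y => (g (up v y)).1.headI, fun y => (g.symm (up (g v) y)).1.headI,
    fun y h => ?_, fun y h => ?_⟩
  · have a := kid g _ v.2 (up v y) ⟨y, up_val h⟩
    refine ⟨kid_C a, ⟨up v y, by rw [up_val h]; rfl, rfl⟩, ?_⟩
    simp only [up_kid a, g.symm_apply_apply, up_val h, headI_cons]
  · have a := kid g.symm _ (g v).2 (up (g v) y) ⟨y, up_val h⟩
    rw [show g.symm ⟨_, (g v).2⟩ = v from g.symm_apply_apply v] at a
    refine ⟨kid_C a, ?_⟩
    simp only [up_kid a, g.apply_symm_apply, up_val h, headI_cons]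

theorem rk_eq (g : T ≃g T) (l : List Word) (h : Ch l) : rk l.headI = rk (g ⟨l, h⟩).1.headI := by
  induction h with
  | root => rw [show g ⟨_, .root⟩ = root from root_eq g]; rfl
  | @step x y l a c ih =>
    rw [(kid_C (kid g _ a ⟨_, .step a c⟩ ⟨y, rfl⟩)).rk, ← ih]
    exact (cov_iff.mp c).rk

theorem hd (g : T ≃g T) (v : V) : (g v).1.headI = v.1.headI ∨ (g v).1.headI = φ v.1.headI :=
  main _ _ (bis g) _ ⟨v, rfl, rfl⟩ (rk_eq g _ v.2)

open Classical in
theorem classify (g : T ≃g T) : ∃ ε, ∀ v, (g v).1 = F ε v.1 := by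
  let ε : List Word → Bool := fun l => decide (∃ y, ∃ h : Ch (y :: l), (g ⟨_, h⟩).1.headI ≠ y)
  refine ⟨ε, fun ⟨l, h⟩ => ?_⟩
  induction h with
  | root => rw [show g ⟨_, .root⟩ = root from root_eq g]; rfl
  | @step x y l a c ih =>
    have k := kid g _ a ⟨_, .step a c⟩ ⟨y, rfl⟩
    have k1 := kid_C k
    have k2 := hd g ⟨_, .step a c⟩
    obtain ⟨y', e⟩ := k
    rw [e, ih] at k1 k2 ⊢
    simp only [F, headI_cons] at k1 k2 ⊢
    congr 1
    by_cases fx : φ y = y
    · simp only [tw, fx] at k2 ⊢
      simpa using k2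
    rw [nxt]
    split_ifs with s
    · by_cases q : y' = y
      · rw [show ε (x :: l) = false from decide_eq_false ?_, q]
        · rfl
        rintro ⟨z, hz, ne⟩
        have k3 := (hd g ⟨_, hz⟩).resolve_left ne
        obtain ⟨z', e'⟩ := kid g _ a ⟨_, hz⟩ ⟨z, rfl⟩
        simp only [e', headI_cons] at k3 ne
        rcases pair s (cov_iff.mp c) (ch_cons.mp hz).2 fx (k3 ▸ ne) with rfl | rfl
        · exact ne ((cons.inj (e'.symm.trans e)).1.trans q)
        · rw [φφ] at k3
          exact fx (cons.inj (congrArg Subtype.val (g.injective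
            (Subtype.ext (e'.trans (by rw [e, k3, q])))))).1
      · rw [show ε (x :: l) = true from decide_eq_true ⟨y, .step a c, by rw [e]; exact q⟩]
        exact k2.resolve_left q
    · by_contra ne
      have k3 := (C_tw (nxt ε l)).mpr (cov_iff.mp c)
      refine s ?_
      revert k1 k3 ne
      cases nxt ε l <;> simp only [tw, Bool.false_eq_true, if_true, if_false] <;> intro k1 ne k3
      · exact both k3 (k2.resolve_left ne ▸ k1) fx
      · have := both (k2.resolve_right ne ▸ k1) k3 fx
        rwa [← φφ x, sp_fix this]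

theorem result :
    (∀ ε, ∃ g : T ≃g T, ∀ v, (g v).1 = F ε v.1) ∧
    (∀ g : T ≃g T, ∃ ε, ∀ v, (g v).1 = F ε v.1) ∧
    ∀ ε ε', (∀ v : V, F ε v.1 = F ε' v.1) ↔ ∀ v : V, sp v.1.headI → ε v.1 = ε' v.1 := by
  refine ⟨fun ε => ⟨⟨(Equiv.ofBijective _ ⟨F_inj ε, F_surj ε⟩).subtypeEquiv
    fun l => (ch_F ε l).symm, fun {a b} => ?_⟩, fun _ => rfl⟩, classify, fun ε ε' => ⟨?_, ?_⟩⟩
  · have : ∀ a b : List Word, (∃ y, F ε b = y :: F ε a) ↔ ∃ y, b = y :: a := by
      rintro a (_ | ⟨y, b⟩)
      · simp [F]
      · simp [F, (F_inj ε).eq_iff]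
    rw [adj, adj]
    exact or_congr (this _ _) (this _ _)
  · rintro h ⟨_ | ⟨x, l⟩, hv⟩ s
    · cases hv
    obtain ⟨y, a, b⟩ := moved s
    have := (cons.inj (h ⟨_, ch_cons.mpr ⟨hv, a⟩⟩)).1
    simp only [nxt, if_pos (show sp x from s)] at this
    revert this
    cases ε (x :: l) <;> cases ε' (x :: l) <;> simp [tw, b, b.symm]
  · rintro h ⟨l, hv⟩
    suffices F ε l = F ε' l ∧ nxt ε l = nxt ε' l from this.1
    induction hv with
    | root => exact ⟨rfl, rfl⟩
    | @step x y l a c ih =>
      refine ⟨by rw [F, F.eq_2 ε', ih.1, ih.2], ?_⟩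
      rw [nxt, nxt.eq_2 ε', ih.2]
      split_ifs with s
      · exact h ⟨_, .step a c⟩ s
      · rfl

end Pool.Agent.Results.MP_ac28de_co.Aut
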